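import Mathlib

/-!
Statements for the removal of coset classes along a central series.
-/

set_option autoImplicit false

open Finset
open scoped commutatorElement

namespace Pool.Agent.Work.MP_11a08a_al.Gp

/-- An ascending series of normal subgroups with central factors. -/
structure Cen {G : Type} [Group G] (Z : ℕ → Subgroup G) : Prop where
  normal : ∀ i, (Z i).Normal
  mono : ∀ i j, i ≤ j → Z i ≤ Z j
  cen : ∀ i, ∀ z ∈ Z (i + 1), ∀ g : G, ⁅z, g⁆ ∈ Z i

section

variable {F G V : Type} [Field F] [Group G] [AddCommGroup V] [Module F V]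

/-- The two elements lie in one coset of `Z i`. -/
def Rel (Z : ℕ → Subgroup G) (i : ℕ) (x y : G) : Prop := x⁻¹ * y ∈ Z i

/-- A linear combination of representation matrices. -/
noncomputable def ev (ρ : Representation F G V) {ι : Type} [Fintype ι] (β : ι → F) (h : ι → G) :
    V →ₗ[F] V := ∑ l, β l • ρ (h l)

/-- The rank. -/
noncomputable def rk (f : V →ₗ[F] V) : ℕ := Module.finrank F (LinearMap.range f)

/-- The rank of `M` controls that of a short nonzero combination inside one coset of `Z 0`. -/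
def Done (ρ : Representation F G V) (Z : ℕ → Subgroup G) (M : V →ₗ[F] V) (n : ℕ) : Prop :=
  ∃ (ι : Type) (_ : Fintype ι) (β : ι → F) (h : ι → G), Fintype.card ι ≤ n ∧
    (∀ l l', Rel Z 0 (h l) (h l')) ∧ ev ρ β h ≠ 0 ∧ rk (ev ρ β h) ≤ n * rk M

/-- The terms in `T` are removed. -/
def Next (ρ : Representation F G V) (Z : ℕ → Subgroup G) {ι : Type} [Fintype ι] (β : ι → F)
    (h : ι → G) (T : Set ι) (x : G) (j n : ℕ) : Prop :=
  ∃ (ι' : Type) (_ : Fintype ι') (β' : ι' → F) (h' : ι' → G) (π : ι' → ι),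
    Fintype.card ι' ≤ n ∧ ev ρ β' h' ≠ 0 ∧ rk (ev ρ β' h') ≤ n * rk (ev ρ β h) ∧
    ∀ l, π l ∉ T ∧ ∀ i, j ≤ i → Rel Z (i + 1) (h (π l)) x → Rel Z i (h' l) (h (π l))

theorem Rel.refl (Z : ℕ → Subgroup G) (i : ℕ) (x : G) : Rel Z i x x := by
  rw [Rel, inv_mul_cancel]
  exact one_mem _

theorem Rel.symm {Z : ℕ → Subgroup G} {i : ℕ} {x y : G} (h : Rel Z i x y) : Rel Z i y x := by
  have := inv_mem h
  rwa [mul_inv_rev, inv_inv] at this

theorem Rel.trans {Z : ℕ → Subgroup G} {i : ℕ} {x y w : G} (h : Rel Z i x y) (h' : Rel Z i y w) :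
    Rel Z i x w := by
  have := mul_mem h h'
  rwa [mul_assoc, mul_inv_cancel_left] at this

theorem Rel.mono {Z : ℕ → Subgroup G} (hZ : Cen Z) {i j : ℕ} {x y : G} (h : Rel Z i x y)
    (hij : i ≤ j) : Rel Z j x y := hZ.mono i j hij h

end

/-- Removal of one class of terms. -/
def Kill (j : ℕ) : Prop :=
  ∀ s : ℕ, ∃ n : ℕ, ∀ (F G V : Type) [Field F] [Group G] [AddCommGroup V] [Module F V]
    [FiniteDimensional F V] (ρ : Representation F G V) (Z : ℕ → Subgroup G), Cen Z →
    (∀ W : Submodule F V, (∀ g, ∀ v ∈ W, ρ g v ∈ W) → W = ⊥ ∨ W = ⊤) →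
    ∀ (ι : Type) [Fintype ι] (β : ι → F) (h : ι → G) (T : Set ι) (x : G),
      Fintype.card ι ≤ s → (∀ l ∈ T, Rel Z j (h l) x) → ev ρ β h ≠ 0 →
      Done ρ Z (ev ρ β h) n ∨ Next ρ Z β h T x j n

/-- The base of the removal. -/
def StmtKill0 : Prop := Kill 0

/-- The step of the removal. -/
def StmtKillS : Prop := ∀ j, Kill j → Kill (j + 1)

end Pool.Agent.Work.MP_11a08a_al.Gp
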