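import Pool.Agent.Work.MP_11a08a_al.Gp.Kill0
import Pool.Agent.Work.MP_11a08a_al.Gp.KillS
import Pool.Agent.Work.MP_11a08a_al.Sol.Main

/-!
The rank bound along a central series above a subgroup with small factors.
-/

set_option autoImplicit false

open Finset Module
open scoped commutatorElement

namespace Pool.Agent.Work.MP_11a08a_al.Gp

theorem kill (j : ℕ) : Kill j := by
  induction j with
  | zero => exact kill0
  | succ j ih => exact killS _ ih

theorem cen_upper {G : Type} [Group G] (S : Subgroup G) [S.Normal] :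
    Cen fun i => (Subgroup.upperCentralSeries (G ⧸ S) i).comap (QuotientGroup.mk' S) := by
  refine ⟨fun i => Subgroup.Normal.comap inferInstance _,
    fun i j hij => Subgroup.comap_mono (Subgroup.upperCentralSeries_mono _ hij), fun i z hz g => ?_⟩
  rw [Subgroup.mem_comap, map_commutatorElement]
  exact Subgroup.mem_upperCentralSeries_succ_iff.1 hz _

theorem final (ε : ℝ) (hε : 0 < ε) (q d e j : ℕ) (he : 0 < e) : ∃ N : ℕ, ∀ n > N,
    ∀ (F : Type) [Field F] (G : Type) [Group G] [Finite G] (S : Subgroup G) [S.Normal],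
      Sol.SecBd d S → (CharZero F ∨ ∀ s ∈ S, ∃ k : ℕ, s ^ (e * ringChar F ^ k) = 1) →
      ∀ ρ : Representation F G (Fin n → F), ρ.IsIrreducible → (Nat.card G : ℝ) ^ ε ≤ n →
      ∀ (h : Fin q → G) (α : Fin q → F),
        (∀ l l', QuotientGroup.mk' S ((h l)⁻¹ * h l') ∈ Subgroup.upperCentralSeries (G ⧸ S) j) →
        ∑ l, α l • ρ (h l) ≠ 0 →
        (n : ℝ) ^ (1 - ε) ≤ finrank F (LinearMap.range (∑ l, α l • ρ (h l))) := by
  classical
  obtain ⟨m, hm⟩ := kill j q
  obtain ⟨N, hN⟩ := Sol.main (ε / 2) (half_pos hε) m d e he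
  refine ⟨max N ⌈(m : ℝ) ^ (2 / ε)⌉₊, fun n hn F _ G _ _ S hS hd hc ρ hirr hg h α hh hne => ?_⟩
  have hn0 : (0 : ℝ) < n := by exact_mod_cast (lt_of_le_of_lt (Nat.zero_le _) hn)
  obtain ⟨l₀, -, -⟩ := exists_ne_zero_of_sum_ne_zero hne
  have hV : ∀ W : Submodule F (Fin n → F), (∀ g, ∀ v ∈ W, ρ g v ∈ W) → W = ⊥ ∨ W = ⊤ := by
    intro W hW
    obtain h1 | h1 := hirr.eq_bot_or_eq_top ⟨W, fun g v hv => hW g v hv⟩
    · exact Or.inl (congrArg Subrepresentation.toSubmodule h1)
    · exact Or.inr (congrArg Subrepresentation.toSubmodule h1)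
  obtain ⟨ι, _, β, h', c1, c2, c3, c4⟩ | ⟨ι, _, β, h', π, -, c2, -, c3⟩ :=
    hm F G _ ρ _ (cen_upper S) hV (Fin q) α h Set.univ (h l₀) (Fintype.card_fin q).le
      (fun l _ => hh l l₀) hne
  swap
  · exact absurd (sum_eq_zero fun l _ => absurd (Set.mem_univ _) (c3 l).1) c2
  obtain ⟨f⟩ := Function.Embedding.nonempty_of_card_le (α := ι) (β := Fin m) (by simpa using c1)
  obtain ⟨l₁, -, -⟩ := exists_ne_zero_of_sum_ne_zero c3
  let g : Fin m → ι := fun k => if c : ∃ l, f l = k then c.choose else l₁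
  have hg' : ∀ l, g (f l) = l := fun l => by
    have c : ∃ l', f l' = f l := ⟨l, rfl⟩
    simp only [g, dif_pos c]
    exact f.injective c.choose_spec
  have key : ∑ k, (if ∃ l, f l = k then β (g k) else 0) • ρ (h' (g k)) = ev ρ β h' := by
    rw [ev, ← sum_subset (subset_univ (univ.map f)), sum_map]
    · exact sum_congr rfl fun l _ => by rw [if_pos ⟨l, rfl⟩, hg']
    · intro k _ hk
      rw [if_neg fun ⟨l, hl⟩ => hk (mem_map.2 ⟨l, mem_univ _, hl⟩), zero_smul]
  have hG1 : (1 : ℝ) ≤ Nat.card G := by exact_mod_cast Nat.card_pos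
  have h1 := hN n ((le_max_left _ _).trans_lt hn) F G S hS hd hc ρ hirr
    ((Real.rpow_le_rpow_of_exponent_le hG1 (by linarith)).trans hg) (fun k => h' (g k))
    (fun k => if ∃ l, f l = k then β (g k) else 0)
    (fun k k' => by
      have := c2 (g k) (g k')
      rwa [Rel, Subgroup.upperCentralSeries_zero, MonoidHom.comap_bot,
        QuotientGroup.ker_mk'] at this)
    (key ▸ c3)
  rw [key] at h1
  have h2 : (m : ℝ) ≤ (n : ℝ) ^ (ε / 2) := by
    have e1 : (m : ℝ) = ((m : ℝ) ^ (2 / ε)) ^ (ε / 2) := by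
      rw [← Real.rpow_mul (Nat.cast_nonneg _), show 2 / ε * (ε / 2) = 1 by field_simp,
        Real.rpow_one]
    rw [e1]
    refine Real.rpow_le_rpow (by positivity) ?_ (by positivity)
    exact (Nat.le_ceil _).trans (by exact_mod_cast ((le_max_right _ _).trans_lt hn).le)
  have h3 : (n : ℝ) ^ (1 - ε / 2) ≤ (n : ℝ) ^ (ε / 2) * rk (ev ρ α h) :=
    h1.trans ((Nat.cast_le.2 c4).trans (by
      rw [Nat.cast_mul]
      exact mul_le_mul_of_nonneg_right h2 (Nat.cast_nonneg _)))
  rw [show 1 - ε / 2 = ε / 2 + (1 - ε) by ring, Real.rpow_add hn0] at h3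
  exact le_of_mul_le_mul_left h3 (by positivity)

end Pool.Agent.Work.MP_11a08a_al.Gp
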