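import Pool.Agent.Work.MP_11a08a_al.Gp.Final

/-!
The case `j = 0` is the theorem for one coset of `S`.
-/

set_option autoImplicit false

namespace Pool.Agent.Work.MP_11a08a_al.Gp

theorem sol_of_final : Sol.StmtFinal := fun ε hε q d e he => by
  obtain ⟨N, hN⟩ := final ε hε q d e 0 he
  refine ⟨N, fun n hn F _ G _ _ S hS hd hc ρ hirr hg h α hh =>
    hN n hn F G S hd hc ρ hirr hg h α fun l l' => ?_⟩
  rw [Subgroup.upperCentralSeries_zero, Subgroup.mem_bot]
  exact (QuotientGroup.eq_one_iff _).2 (hh l l')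

end Pool.Agent.Work.MP_11a08a_al.Gp
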