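import Pool.Agent.Work.MP_11a08a_al.Gp.Defs

/-!
The base of the removal of a class of terms.
-/

set_option autoImplicit false

open Finset
open scoped commutatorElement

namespace Pool.Agent.Work.MP_11a08a_al.Gp

section

variable {F V : Type} [Field F] [AddCommGroup V] [Module F V] [FiniteDimensional F V]

theorem gpkill0_left (A M : V →ₗ[F] V) : rk (A * M) ≤ rk M := by
  unfold rk
  rw [Module.End.mul_eq_comp, LinearMap.range_comp]
  exact Submodule.finrank_map_le _ _

theorem gpkill0_right (M B : V →ₗ[F] V) : rk (M * B) ≤ rk M :=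
  Submodule.finrank_mono (LinearMap.range_comp_le_range B M)

theorem gpkill0_sub (A B : V →ₗ[F] V) : rk (A - B) ≤ rk A + rk B := by
  refine le_trans (Submodule.finrank_mono ?_)
    (Submodule.finrank_add_le_finrank_add_finrank (LinearMap.range A) (LinearMap.range B))
  rintro _ ⟨v, rfl⟩
  exact Submodule.sub_mem _ (Submodule.mem_sup_left ⟨v, rfl⟩) (Submodule.mem_sup_right ⟨v, rfl⟩)

theorem gpkill0_ker {A M : V →ₗ[F] V} (h : ∀ v, M v = 0 → A v = 0) : rk A ≤ rk M := by
  have h1 := LinearMap.finrank_range_add_finrank_ker A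
  have h2 := LinearMap.finrank_range_add_finrank_ker M
  have h3 : Module.finrank F (LinearMap.ker M) ≤ Module.finrank F (LinearMap.ker A) :=
    Submodule.finrank_mono fun v hv => h v hv
  unfold rk
  omega

end

theorem kill0 : StmtKill0 := by
  classical
  intro s
  refine ⟨2 * s * s + s + 2, fun F G V _ _ _ _ _ ρ Z hZ hV ι _ β h T x hs hT hM => ?_⟩
  set M := ev ρ β h with hMe
  set M1 := ev ρ (fun l : {l // l ∈ T} => β l) fun l => h l with hM1
  set M2 := ev ρ (fun l : {l // l ∉ T} => β l) fun l => h l with hM2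
  have hsplit : M = M1 + M2 :=
    (Fintype.sum_subtype_add_sum_subtype (· ∈ T) fun l => β l • ρ (h l)).symm
  have c1 : Fintype.card {l // l ∈ T} ≤ s := (Fintype.card_subtype_le _).trans hs
  have c2 : Fintype.card {l // l ∉ T} ≤ s := (Fintype.card_subtype_le _).trans hs
  have n1 : ∀ r : ℕ, r ≤ (2 * s * s + s + 2) * r := fun r =>
    Nat.le_mul_of_pos_left _ (by omega)
  by_cases h0 : M1 = 0
  · rw [h0, zero_add] at hsplit
    refine Or.inr ⟨_, inferInstance, _, _, Subtype.val, c2.trans (by omega), hsplit ▸ hM, ?_,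
      fun l => ⟨l.2, fun _ _ _ => Rel.refl _ _ _⟩⟩
    rw [← hM2, ← hsplit]
    exact n1 _
  by_cases hb : ∀ b : G, M1 * ρ b * M = M * ρ b * M1
  · refine Or.inl ⟨_, inferInstance, _, _, c1.trans (by omega),
      fun l l' => (hT _ l.2).trans (hT _ l'.2).symm, h0, le_trans (gpkill0_ker fun v hv => ?_) (n1 _)⟩
    let W : Submodule F V := ⨅ b : G, LinearMap.ker (M * ρ b)
    have hW : ∀ w, w ∈ W ↔ ∀ b : G, M (ρ b w) = 0 := fun w => by
      simp only [W, Submodule.mem_iInf, LinearMap.mem_ker, Module.End.mul_apply]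
    obtain e | e := hV W fun g w hw => (hW _).2 fun b => by
      rw [← Module.End.mul_apply (ρ b), ← map_mul]
      exact (hW _).1 hw _
    · have : M1 v ∈ W := (hW _).2 fun b => by
        have := LinearMap.congr_fun (hb b) v
        simp only [Module.End.mul_apply, hv, map_zero] at this
        exact this.symm
      rw [e] at this
      exact this
    · refine absurd (LinearMap.ext fun w => ?_) hM
      have := (hW w).1 (e ▸ Submodule.mem_top) 1
      rwa [map_one, Module.End.one_apply] at this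
  obtain ⟨b, hb⟩ := not_forall.1 hb
  let β' : ({l // l ∈ T} × {l // l ∉ T}) ⊕ ({l // l ∉ T} × {l // l ∈ T}) → F := fun p =>
    p.elim (fun p => β p.1 * β p.2) fun p => -(β p.1 * β p.2)
  let h' : ({l // l ∈ T} × {l // l ∉ T}) ⊕ ({l // l ∉ T} × {l // l ∈ T}) → G := fun p =>
    p.elim (fun p => b⁻¹ * x⁻¹ * (h p.1 * b * h p.2)) fun p => b⁻¹ * x⁻¹ * (h p.1 * b * h p.2)
  have key : ev ρ β' h' = ρ (b⁻¹ * x⁻¹) * (M1 * ρ b * M - M * ρ b * M1) := by
    have e : M1 * ρ b * M - M * ρ b * M1 = M1 * ρ b * M2 - M2 * ρ b * M1 := by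
      rw [hsplit]
      noncomm_ring
    rw [e, hM1, hM2]
    simp only [ev, β', h', Fintype.sum_sum_type, Sum.elim_inl, Sum.elim_inr, Fintype.sum_prod_type,
      mul_add, mul_neg, sum_mul, mul_sum, smul_mul_assoc, mul_smul_comm, map_mul, neg_smul,
      sum_neg_distrib, smul_smul, smul_sum, sub_eq_add_neg]
    congr 1
    · rw [sum_comm]
      exact sum_congr rfl fun _ _ => sum_congr rfl fun _ _ => by rw [mul_comm (β _)]
    · congr 1
      rw [sum_comm]
      exact sum_congr rfl fun _ _ => sum_congr rfl fun _ _ => by rw [mul_comm (β _)]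
  refine Or.inr ⟨_, inferInstance, β', h', fun p => p.elim (fun p => p.2.1) fun p => p.1.1, ?_,
    fun e => hb ?_, ?_, ?_⟩
  · rw [Fintype.card_sum, Fintype.card_prod, Fintype.card_prod]
    have := Nat.mul_le_mul c1 c2
    have := Nat.mul_le_mul c2 c1
    nlinarith
  · rw [key] at e
    have : ρ (b⁻¹ * x⁻¹)⁻¹ * (ρ (b⁻¹ * x⁻¹) * (M1 * ρ b * M - M * ρ b * M1)) = 0 := by
      rw [e, mul_zero]
    rw [← mul_assoc, ← map_mul, inv_mul_cancel, map_one, one_mul] at this
    exact sub_eq_zero.1 this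
  · rw [key, ← hMe]
    refine (gpkill0_left _ _).trans ((gpkill0_sub _ _).trans ?_)
    have k1 := gpkill0_left (M1 * ρ b) M
    have k2 := gpkill0_right M (ρ b * M1)
    rw [← mul_assoc] at k2
    exact (add_le_add k1 k2).trans ((two_mul _).ge.trans (Nat.mul_le_mul_right _ (by omega)))
  · rintro (⟨t, l⟩ | ⟨l, t⟩)
    · refine ⟨l.2, fun i _ _ => ?_⟩
      have k1 := (hZ.normal i).conj_mem' _ (hZ.mono 0 i (Nat.zero_le _) (hT _ t.2)) (b * h l)
      refine (congrArg (· ∈ Z i) ?_).mp k1
      simp only [h', Sum.elim_inl]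
      group
    · refine ⟨l.2, fun i _ hl => ?_⟩
      have k1 := mul_mem (hZ.mono 0 i (Nat.zero_le _) (hT _ t.2))
        (inv_mem (hZ.cen i _ hl (b * x)⁻¹))
      refine (congrArg (· ∈ Z i) ?_).mp k1
      simp only [h', Sum.elim_inr, commutatorElement_def]
      group

end Pool.Agent.Work.MP_11a08a_al.Gp
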